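import Mathlib
import Pool.Agent.X73.HC.Upper

/-!
# The discrepancy of random subsets of hypercube neighbourhoods is of order `√n`

`families n` is the set of all families `(S_v)`, `v` a vertex of the `n`-cube, with
`S_v ⊆ N(v)`; the random family of the problem is uniformly distributed on it.

* Every realisation has discrepancy at most `10^11 √n` (`n ≥ 1`).
* For all `n`, `K` the proportion of the families with discrepancy at most `K` is at most
  `(2 (2 K + 1) / √(n + 1))^(2^n)`.
* Hence the probability that the discrepancy lies between `√n / 5` and `10^11 √n` tends to `1`: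
  the discrepancy is `Θ(√n)`, so `f(n) = √n`.
-/

set_option autoImplicit false

open Finset Filter Topology X73.HC

namespace Pool.Agent.Results.MP_3166d6_co.SquareRoot

theorem result :
    (∀ n : ℕ, 1 ≤ n → ∀ S ∈ families n, (disc S : ℝ) ≤ 100000000000 * √n) ∧
    (∀ n K : ℕ, (((families n).filter fun S => disc S ≤ K).card : ℝ) ≤
        (2 * (2 * K + 1) / √(n + 1)) ^ 2 ^ n * ((families n).card : ℝ)) ∧
    Tendsto (fun n : ℕ => (((families n).filter fun S => √n / 5 ≤ (disc S : ℝ) ∧
        (disc S : ℝ) ≤ 100000000000 * √n).card : ℝ) / ((families n).card : ℝ)) atTop (𝓝 1) := by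
  have hup : ∀ n : ℕ, 1 ≤ n → ∀ S ∈ families n, (disc S : ℝ) ≤ 100000000000 * √n := by
    intro n hn S hS
    rw [mem_families] at hS
    obtain ⟨χ, hχ, h⟩ := upper hn S hS
    have h1 : disc S ≤ ⌊(100000000000 * √n : ℝ)⌋₊ := by
      apply disc_le S _ χ hχ
      intro v
      have h2 := h v
      have h3 : ((|∑ x ∈ S v, χ x|).toNat : ℝ) ≤ 100000000000 * √n := by
        have h4 : (((|∑ x ∈ S v, χ x|).toNat : ℤ) : ℝ) = ((|∑ x ∈ S v, χ x| : ℤ) : ℝ) := by
          rw [Int.toNat_of_nonneg (abs_nonneg _)]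
        rw [Int.cast_natCast] at h4
        rw [h4, Int.cast_abs]
        exact h2
      have h5 := Nat.le_floor h3
      have h6 : |∑ x ∈ S v, χ x| = ((|∑ x ∈ S v, χ x|).toNat : ℤ) :=
        (Int.toNat_of_nonneg (abs_nonneg _)).symm
      rw [h6]
      exact_mod_cast h5
    exact (Nat.cast_le.2 h1).trans (Nat.floor_le (by positivity))
  refine ⟨hup, frac_low, ?_⟩
  have hcard : ∀ n : ℕ, (0 : ℝ) < ((families n).card : ℝ) := by
    intro n
    rw [card_families]; positivity
  have hpow : Tendsto (fun n : ℕ => 1 - ((9 : ℝ) / 10) ^ 2 ^ n) atTop (𝓝 1) := by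
    have h1 : Tendsto (fun n : ℕ => ((9 : ℝ) / 10) ^ 2 ^ n) atTop (𝓝 0) :=
      (tendsto_pow_atTop_nhds_zero_of_lt_one (by norm_num) (by norm_num)).comp
        (tendsto_pow_atTop_atTop_of_one_lt (by norm_num))
    simpa using h1.const_sub 1
  refine tendsto_of_tendsto_of_tendsto_of_le_of_le' hpow tendsto_const_nhds ?_ ?_
  · filter_upwards [eventually_ge_atTop 400] with n hn
    have hn1 : (400 : ℝ) ≤ n := by exact_mod_cast hn
    have hs : (20 : ℝ) ≤ √n := by
      apply Real.le_sqrt_of_sq_le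
      norm_num; linarith
    have hs' : √(n : ℝ) ≤ √((n : ℝ) + 1) := Real.sqrt_le_sqrt (by linarith)
    rw [le_div_iff₀ (hcard n)]
    have h1 := frac_low n ⌊(√n / 5 : ℝ)⌋₊
    have h2 : (families n).filter (fun S => ¬ (√n / 5 ≤ (disc S : ℝ) ∧
        (disc S : ℝ) ≤ 100000000000 * √n)) ⊆
        (families n).filter fun S => disc S ≤ ⌊(√n / 5 : ℝ)⌋₊ := by
      intro S hS
      rw [mem_filter] at hS ⊢
      refine ⟨hS.1, ?_⟩
      apply Nat.le_floor
      by_contra h
      exact hS.2 ⟨(not_le.1 h).le, hup n (by omega) S hS.1⟩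
    have h3 : (((families n).filter fun S => ¬ (√n / 5 ≤ (disc S : ℝ) ∧
        (disc S : ℝ) ≤ 100000000000 * √n)).card : ℝ) ≤ ((9 : ℝ) / 10) ^ 2 ^ n *
          ((families n).card : ℝ) := by
      refine (Nat.cast_le.2 (card_le_card h2)).trans (h1.trans ?_)
      apply mul_le_mul_of_nonneg_right _ (hcard n).le
      apply pow_le_pow_left₀ (by positivity)
      rw [div_le_iff₀ (by linarith)]
      have h4 : ((⌊(√n / 5 : ℝ)⌋₊ : ℕ) : ℝ) ≤ √n / 5 := Nat.floor_le (by positivity)
      nlinarith
    have h5 : (((families n).filter fun S => √n / 5 ≤ (disc S : ℝ) ∧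
        (disc S : ℝ) ≤ 100000000000 * √n).card : ℝ) + (((families n).filter fun S =>
        ¬ (√n / 5 ≤ (disc S : ℝ) ∧ (disc S : ℝ) ≤ 100000000000 * √n)).card : ℝ) =
        ((families n).card : ℝ) := by
      exact_mod_cast Finset.card_filter_add_card_filter_not
        (s := families n) (fun S => √n / 5 ≤ (disc S : ℝ) ∧ (disc S : ℝ) ≤ 100000000000 * √n)
    linarith
  · filter_upwards with n
    rw [div_le_one (hcard n)]
    exact_mod_cast card_le_card (filter_subset _ _)

end Pool.Agent.Results.MP_3166d6_co.SquareRoot
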